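import Pool.Agent.Q6.FD.Spec
import Pool.Agent.Y742.HC.All

/-!
# The Hilbert property for double covers of the flag variety

Let `k` be a finitely generated field of characteristic zero (for instance a number field) and let
`W ⊆ ℙ² × ℙ²` be the variety `x₀y₀ + x₁y₁ + x₂y₂ = 0` of the flags (point, line) of the plane.
Consider the double cover `w² = F(x, y)` of `W` branched along a form `F` of bidegree `(2, 2)`;
in the smooth case these are Fano threefolds (No. 2.6 (b) in the list of Mori and Mukai), which are
algebraically simply connected.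

In the affine coordinates `(s, p, q)` of `W` (the flags `x = (1, p, q)`, `y = (q - ps, s, -1)`) the
form `F` is a polynomial `G(s, p, q)`. We suppose that `G` is squarefree, not divisible by a
nonconstant polynomial in `p` and `q` alone, and not a polynomial in `s` and `q - ps` alone. (So
the branch divisor is reduced, has no component which comes from a curve in the first plane, and
does not come from the second plane.)

For every integral scheme `X` locally of finite type over `k` which is birational to the double
cover the following are equivalent: the value of `F` at some flag over `k` is a nonzero square (so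
the double cover has a `k`-point outside the branch divisor); the `k`-points of `X` are dense; `X`
has the Hilbert property; `X` is unirational over `k`.

Idea of the proof. The two projections to the planes give two conic fibrations (`(p, q)` is fixed
in the first, `(s, q - ps)` in the second). Through a point outside the branch divisor there are
conics with infinitely many points of both kinds, and one obtains a dense set of points. By the
theory of `ConicFibrations` the variety is then unirational, and one has to show that a cover `M`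
which is pulled back from both bases is trivial (and that there are no common invariants).
Let `N` be the part of `M` which is algebraic over `k(p, q)`. For a prime divisor `π(p, q) = 0` of
the affine plane there is a place of the function field which is unramified, is centred at the
generic point of `π = 0`, and is trivial on the functions `k(s, q - ps)` of the second base, as the
preimages of the curves of the two planes are different; so `N` is unramified over `π = 0`.
Finally the affine plane has no covers which are unramified in codimension one.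
-/

set_option autoImplicit false
set_option maxHeartbeats 400000

namespace Pool.Agent.Results.MP_87f965_ag.FlagDoubleCovers

open MvPolynomial AlgebraicGeometry CategoryTheory W560.HP Pool.Agent.Y742.HC

/-- The form of bidegree `(2, 2)` with the coefficients `c` at the point `(x, y)`. -/
noncomputable def form {k R : Type} [Field k] [CommRing R] [Algebra k R]
    (c : Fin 3 → Fin 3 → Fin 3 → Fin 3 → k) (x y : Fin 3 → R) : R :=
  ∑ i, ∑ j, ∑ l, ∑ m, algebraMap k R (c i j l m) * x i * x j * y l * y m

/-- The form in the affine coordinates `s = X 0`, `p = X 1`, `q = X 2` of the variety of flags: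
its value at `x = (1, p, q)`, `y = (q - p s, s, -1)`. -/
noncomputable def affineForm {k : Type} [Field k] (c : Fin 3 → Fin 3 → Fin 3 → Fin 3 → k) :
    MvPolynomial (Fin 3) k :=
  form c ![1, X 1, X 2] ![X 2 - X 1 * X 0, X 0, -1]

/-- The integral `k`-scheme `X` is birational to the double cover `w² = form c x y` of the variety
`x₀y₀ + x₁y₁ + x₂y₂ = 0` of flags: its function field is generated over `k` by the coordinates of a
generic point `(x, y)` of this variety (normalised by `x₀ = 1`, `y₂ = -1`) and by `w`. -/
def BirationalToDoubleCover {k : Type} [Field k] (c : Fin 3 → Fin 3 → Fin 3 → Fin 3 → k)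
    (X : Scheme.{0}) [IsIntegral X] (p : X ⟶ Spec (CommRingCat.of k)) : Prop :=
  ∃ (K : Type) (_ : Field K) (_ : Algebra k K) (e : X.functionField ≃+* K) (x y : Fin 3 → K)
    (w : K), (∀ a : k, e (toFF k X p a) = algebraMap k K a) ∧ x 0 = 1 ∧ y 2 = -1 ∧
    ∑ i, x i * y i = 0 ∧ AlgebraicIndependent k ![y 1, x 1, x 2] ∧ w ^ 2 = form c x y ∧
    IntermediateField.adjoin k (Set.range x ∪ Set.range y ∪ {w}) = ⊤

/-- **The Hilbert property for double covers of the flag variety.** -/
theorem result (k : Type) [Field k] [CharZero k]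
    (hk : ∃ S : Finset k, IntermediateField.adjoin ℚ (S : Set k) = ⊤)
    (c : Fin 3 → Fin 3 → Fin 3 → Fin 3 → k) (hsq : Squarefree (affineForm c))
    (h1 : ∀ h : MvPolynomial (Fin 2) k, aeval ![X 1, X 2] h ∣ affineForm c → ∃ a : k, h = C a)
    (h2 : ∀ h : MvPolynomial (Fin 2) k, aeval ![X 0, X 2 - X 1 * X 0] h ≠ affineForm c)
    (X : Scheme.{0}) (p : X ⟶ Spec (CommRingCat.of k)) [IsIntegral X] [LocallyOfFiniteType p]
    (hX : BirationalToDoubleCover c X p) :
    [∃ x y : Fin 3 → k, ∑ i, x i * y i = 0 ∧ ∃ w : k, w ≠ 0 ∧ w ^ 2 = form c x y,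
      DensePoints k X p, HilbertProperty k X p, UnirationalScheme k X p].TFAE ∧
    ((∀ x : X, IsIntegrallyClosed (X.presheaf.stalk x)) → DensePoints k X p →
      HilbertPropertyIso k X p) := by
  classical
  obtain ⟨K, iK, iA, e, x, y, w, he, hx0, hy2, hxy, hind, hw, htop⟩ := hX
  obtain ⟨L, hL, hinv, hcov⟩ := Pool.Agent.Q6.FD.fields c hx0 hy2 hxy hind hw htop hsq h1 h2
  obtain ⟨hwG, htop'⟩ := Pool.Agent.Q6.FD.affine_gen c hx0 hy2 hxy hw htop
  have hC : ∀ u : k, Pool.Agent.Q6.FD.branchF c ≠ C u := by
    intro u hu
    refine h2 (C u) ?_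
    rw [aeval_C]
    exact hu.symm
  have hG0 : Pool.Agent.Q6.FD.branchF c ≠ 0 := by
    intro hu
    exact hC 0 (by rw [hu, map_zero])
  have hw0 : w ≠ 0 := by
    rintro rfl
    apply hG0
    apply (algebraicIndependent_iff.1 hind)
    rw [← hwG]
    exact zero_pow two_ne_zero
  have hHP : DensePoints k X p → HilbertProperty k X p ∧
      ((∀ x : X, IsIntegrallyClosed (X.presheaf.stalk x)) → HilbertPropertyIso k X p) := by
    intro hd
    exact (hilb k hk K X p e he hd L hL hinv).2.1 fun M _ _ _ _ _ hM1 hM2 _ => hcov M hM1 hM2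
  obtain ⟨V, hV, hT⟩ := opens k K X p ⟨e, he⟩ L hL hinv
  refine ⟨?_, fun hn hd => (hHP hd).2 hn⟩
  have h32 : HilbertProperty k X p → DensePoints k X p := by
    intro h
    refine (h 0 (fun i => i.elim0) (fun i => i.elim0) (fun i => i.elim0) (fun i => i.elim0)
      (fun i => i.elim0) (fun i => i.elim0)).mono ?_
    rintro x ⟨s, hs, hx, -⟩
    exact ⟨s, hs, hx⟩
  have h14 : (∃ x y : Fin 3 → k, ∑ i, x i * y i = 0 ∧ ∃ w : k, w ≠ 0 ∧ w ^ 2 = form c x y) →
      UnirationalScheme k X p := by
    rintro ⟨a, b, hab, v, hv, hF⟩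
    obtain ⟨s₀, p₀, q₀, hS⟩ := Pool.Agent.Q6.FD.exists_affine (c := c) (a := a) (b := b)
      ⟨hab, v, hv, hF⟩
    obtain ⟨A, B, C₀, hG1⟩ := Pool.Agent.Q6.FD.branch_dec1 c
    obtain ⟨A', B', C₀', hG2⟩ := Pool.Agent.Q6.FD.branch_dec2 c
    have hgen := Pool.Agent.Q6.FD.gen_cover hind hsq hC hwG htop'
    have hfg : ∃ S : Finset K, IntermediateField.adjoin k (S : Set K) = ⊤ := by
      refine ⟨{y 1, x 1, x 2, w}, ?_⟩
      rw [← htop']
      simp
    obtain ⟨N, z, G, hz, hG, h⟩ := field_main sCon sStep Pool.Agent.Y427.HC.sEq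
      Pool.Agent.Y161.HC.sPure Pool.Agent.Y849.HC.sHyp hfg L hL hinv
    obtain ⟨c₀, hc₁, hc₂⟩ := Pool.Agent.Q35.HB.specialise hgen
      (Pool.Agent.Q6.FD.dense_cover hsq hC hG1 hG2 hS) z G hG
    obtain ⟨m, ⟨φ⟩⟩ := h c₀ hc₁ hc₂
    refine ⟨Fin m, inferInstance, (φ : K →+* FractionRing (MvPolynomial (Fin m) k)).comp
      (e : X.functionField →+* K), fun a => ?_⟩
    change φ (e (toFF k X p a)) = _
    rw [he a, AlgHom.commutes]
  have h21 : DensePoints k X p →
      ∃ x y : Fin 3 → k, ∑ i, x i * y i = 0 ∧ ∃ w : k, w ≠ 0 ∧ w ^ 2 = form c x y := by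
    intro hd
    obtain ⟨a, ha⟩ := Pool.Agent.TH178.HI.exists_place k X p hd K e he
      (![y 1, x 1, x 2, w, w⁻¹] : Fin 5 → K)
    have e1 : (![y 1, x 1, x 2, w, w⁻¹] : Fin 5 → K) ∘ (![0, 1, 2] : Fin 3 → Fin 5) =
        ![y 1, x 1, x 2] := by
      funext i
      fin_cases i <;> rfl
    have e2 : a ∘ (![0, 1, 2] : Fin 3 → Fin 5) = ![a 0, a 1, a 2] := by
      funext i
      fin_cases i <;> rfl
    have r1 := ha (MvPolynomial.X 3 ^ 2 -
      rename (![0, 1, 2] : Fin 3 → Fin 5) (Pool.Agent.Q6.FD.branchF c)) (by
      rw [map_sub, map_pow, aeval_X, aeval_rename, e1, ← hwG, sub_eq_zero]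
      rfl)
    have r2 := ha (MvPolynomial.X 3 * MvPolynomial.X 4 - 1) (by
      rw [map_sub, map_mul, aeval_X, aeval_X, map_one, sub_eq_zero]
      exact mul_inv_cancel₀ hw0)
    rw [map_sub, map_pow, eval_X, eval_rename, e2, sub_eq_zero, Pool.Agent.Q6.FD.eval_branch] at r1
    rw [map_sub, map_mul, eval_X, eval_X, map_one, sub_eq_zero] at r2
    refine ⟨![1, a 1, a 2], ![a 2 - a 1 * a 0, a 0, -1], ?_, a 3, ?_, r1⟩
    · rw [Fin.sum_univ_three]
      simp
    · intro h0
      rw [h0, zero_mul] at r2
      exact zero_ne_one r2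
  tfae_have 1 → 4 := h14
  tfae_have 2 → 1 := h21
  tfae_have 2 → 3 := fun hd => (hHP hd).1
  tfae_have 3 → 2 := h32
  tfae_have 4 → 2 := (hT.out 1 2).2
  tfae_finish

end Pool.Agent.Results.MP_87f965_ag.FlagDoubleCovers
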