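import Pool.Agent.Q35.HB.All

/-!
# The Hilbert property for smooth hypersurfaces of multidegree (2, ..., 2)

Let `k` be a finitely generated field of characteristic zero (for instance a number field) and let
`V = {F = 0} ⊆ ℙ^{n₁} × … × ℙ^{n_r}`, where all `n_l ≥ 2`, be a smooth hypersurface of multidegree
`(2, …, 2)`; for instance a hypersurface of multidegree `(2, …, 2)` in a product of projective
planes (a conic bundle in `r` ways; for `r = 2` a Verra threefold). It is algebraically simply
connected. For every integral scheme `X` locally of finite type over `k` which is birational to `V`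
(for instance `V` itself) the following are equivalent:

(1) `V` has a `k`-point which is not special. (Special means that for a nonempty set `S` of factors
all partial derivatives of `F` in the directions of the factors in `S` are proportional to `F` on
the fibre over the coordinates of the point in these factors; these points lie in a closed subset of
codimension at least two.)

(2) The `k`-points of `X` are dense.

(3) `X` has the Hilbert property.

(4) `X` is unirational over `k`.

In particular `X` has the Hilbert property as soon as its `k`-points are dense. For normal `X` this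
is also proved in the form in which covers are only required not to be isomorphisms.

Idea of the proof. `V` has many conic fibrations: fix all the coordinates except for two of the
factor `l`. If the rational points are dense then the cone over `V` is unirational and has a finite
cover with the Hilbert property which is pulled back from the base of each of the fibrations. We
show that such a cover `M` of the function field `K` is trivial: the part `κ` of `M` algebraic over
the field of the rational functions in the affine coordinates of one of the bases has to be
unramified over all the prime divisors `π = 0` of the affine space. For this one takes a general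
point `ξ` over the generic point of `π = 0` and shows by means of the classification of the
subvarieties preserved by all the conics that `ξ` lies over a general point of the base of one of
the other fibrations; so the cover is unramified there. Finally the affine space has no covers
which are unramified in codimension one; this is shown by means of Puiseux series at infinity.
-/

set_option autoImplicit false

namespace Pool.Agent.Results.MP_87f965_ag.MultidegreeTwo

open MvPolynomial AlgebraicGeometry CategoryTheory W560.HP

/-- The multihomogeneous coordinates of `ℙ^{n₁} × … × ℙ^{n_r}`. -/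
abbrev Vars {r : ℕ} (n : Fin r → ℕ) : Type := (l : Fin r) × Fin (n l + 1)

/-- `F` is a form of degree `d l` in the coordinates of the factor `l`, for all `l`. -/
def MultiHomogeneous {r : ℕ} {n : Fin r → ℕ} (d : Fin r → ℕ) {k : Type} [Field k]
    (F : MvPolynomial (Vars n) k) : Prop :=
  ∀ m ∈ F.support, ∀ l, ∑ i, m ⟨l, i⟩ = d l

/-- The coordinates of no factor are all zero. -/
def Proper {r : ℕ} {n : Fin r → ℕ} {k : Type} [Zero k] (z : Vars n → k) : Prop :=
  ∀ l, ∃ i, z ⟨l, i⟩ ≠ 0

/-- The hypersurface `F = 0` is smooth. -/
def Smooth {r : ℕ} {n : Fin r → ℕ} {k : Type} [Field k] (F : MvPolynomial (Vars n) k) : Prop :=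
  ∀ z : Vars n → AlgebraicClosure k, Proper z → aeval z F = 0 → ∃ s, aeval z (pderiv s F) ≠ 0

/-- The point `x` is special with respect to the set `S` of factors, which is not empty: on the set
of all points with the same coordinates as `x` in the factors in `S` all partial derivatives of `F`
in the directions of the factors in `S` are constant multiples of `F`. -/
def SpecialIn {r : ℕ} {n : Fin r → ℕ} {k : Type} [Field k]
    (F : MvPolynomial (Vars n) k) (S : Finset (Fin r)) (x : Vars n → k) : Prop :=
  S.Nonempty ∧ ∀ s : Vars n, s.1 ∈ S → ∃ c : k, ∀ y : Vars n → k,
    (∀ t : Vars n, t.1 ∈ S → y t = x t) → eval y (pderiv s F) = c * eval y F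

/-- The integral `k`-scheme `X` is birational to the hypersurface `F = 0`: its function field is
generated over `k` by the multihomogeneous coordinates `y` of a point of `F = 0` (normalised so that
one of the coordinates of each factor is `1`) which satisfy no further multihomogeneous
equations. -/
def BirationalTo {r : ℕ} {n : Fin r → ℕ} {k : Type} [Field k] (F : MvPolynomial (Vars n) k)
    (X : Scheme.{0}) [IsIntegral X] (p : X ⟶ Spec (CommRingCat.of k)) : Prop :=
  ∃ (K : Type) (_ : Field K) (_ : Algebra k K) (e : X.functionField ≃+* K) (y : Vars n → K),
    (∀ a : k, e (toFF k X p a) = algebraMap k K a) ∧ (∀ l, ∃ b, y ⟨l, b⟩ = 1) ∧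
    IntermediateField.adjoin k (Set.range y) = ⊤ ∧ aeval y F = 0 ∧
    ∀ (d : Fin r → ℕ) (f : MvPolynomial (Vars n) k), MultiHomogeneous d f → aeval y f = 0 → F ∣ f

/-- The `k`-points of `X` are dense. -/
def DensePoints (k : Type) [Field k] (X : Scheme.{0}) (p : X ⟶ Spec (CommRingCat.of k)) : Prop :=
  Dense {x : X | ∃ s : Spec (CommRingCat.of k) ⟶ X, s ≫ p = 𝟙 _ ∧ x ∈ Set.range s.base}

/-- **The Hilbert property for smooth hypersurfaces of multidegree (2, ..., 2).** -/
theorem result (k : Type) [Field k] [CharZero k]
    (hk : ∃ S : Finset k, IntermediateField.adjoin ℚ (S : Set k) = ⊤) (r : ℕ) (n : Fin r → ℕ)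
    (hn : ∀ l, 2 ≤ n l) (F : MvPolynomial (Vars n) k) (hF : MultiHomogeneous (fun _ => 2) F)
    (hsm : Smooth F) (X : Scheme.{0}) [IsIntegral X] (p : X ⟶ Spec (CommRingCat.of k))
    [LocallyOfFiniteType p] (hX : BirationalTo F X p) :
    [∃ x : Vars n → k, Proper x ∧ eval x F = 0 ∧ ∀ S, ¬ SpecialIn F S x,
      DensePoints k X p, HilbertProperty k X p, UnirationalScheme k X p].TFAE ∧
    ((∀ x : X, IsIntegrallyClosed (X.presheaf.stalk x)) →
      DensePoints k X p → HilbertPropertyIso k X p) := by
  open Pool.Agent.Q35.ST in
  have hF' : MH Set.univ (fun _ => 2) F := fun m hm l _ => hF m hm l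
  have hsm' : Smth (map (algebraMap k (AlgebraicClosure k)) F) := by
    intro z hz hzF
    rw [MvPolynomial.eval_map] at hzF
    obtain ⟨s, hs⟩ := hsm z (fun l => hz l (Set.mem_univ _)) hzF
    exact ⟨s, by rw [pderiv_map, MvPolynomial.eval_map]; exact hs⟩
  obtain ⟨K, iK, iA, e, y, he, h1, h2, h3, h4⟩ := hX
  have h := Pool.Agent.Q35.HB.scheme hk hF' hn hsm' X p
    ⟨K, iK, iA, e, y, he, h1, h2, h3, fun d f hf => h4 d f (fun m hm l => hf m hm l trivial)⟩
  have h0 : (∃ x : Vars n → k, Proper x ∧ eval x F = 0 ∧ ∀ S, ¬ SpecialIn F S x) ↔
      ∃ x : Pc n → k, Nz Set.univ x ∧ eval x F = 0 ∧ ∀ S, ¬ SpecIn F S x := by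
    constructor
    · rintro ⟨x, hx, h⟩
      exact ⟨x, fun l _ => hx l, h⟩
    · rintro ⟨x, hx, h⟩
      exact ⟨x, fun l => hx l trivial, h⟩
  rw [h0]
  exact h

end Pool.Agent.Results.MP_87f965_ag.MultidegreeTwo
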