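import Pool.Agent.Q84.RM.Main
import Pool.Agent.Q35.HB.All

/-!
# 100% of the everywhere locally soluble hypersurfaces of multidegree (2, ..., 2) have the Hilbert
property

Let `r ≥ 2` and `n₁, …, n_r ≥ 2`. Among the hypersurfaces `f = 0` of multidegree `(2, …, 2)` in
`ℙ^{n₁} × … × ℙ^{n_r}` over `ℚ` which have points over the real numbers and over all the `p`-adic
fields, `f` running over the integral forms with coefficients bounded by `H`, a proportion tending
to `1` as `H → ∞` is smooth, unirational over `ℚ`, has dense rational points and the Hilbert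
property (as has every integral scheme which is birational to it).

Idea of the proof. By the theorem of the hand-in `MultidegreeTwo` it suffices to find a rational
point `x` of the hypersurface such that for each factor there is a derivative of `f` in the
directions of this factor which is not zero at `x`. For almost all `f` there is a prime number `p`,
small compared to `H`, such that `f` vanishes modulo `p` at the point
`(1 : 0 : … : 0; …; 1 : 0 : … : 0)` but none of its derivatives with respect to the last variables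
of the factors does: this concerns only `r + 1` coefficients of `f`, and the sum of the reciprocals
of the prime numbers is infinite. So `f` has a `p`-adic zero near to this point by Hensel's lemma,
and for almost all everywhere locally soluble `f` this zero can be approximated by rational zeros.
Almost all forms are smooth because the singular forms satisfy an algebraic equation.
-/

set_option autoImplicit false

namespace Pool.Agent.Results.MP_87f965_ag.RandomMultidegreeTwo

open MvPolynomial AlgebraicGeometry CategoryTheory W560.HP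

/-- The multihomogeneous coordinates of `ℙ^{n₁} × … × ℙ^{n_r}`. -/
abbrev Vars {r : ℕ} (n : Fin r → ℕ) : Type := (l : Fin r) × Fin (n l + 1)

/-- `F` is a form of degree `d l` in the coordinates of the factor `l`, for all `l`. -/
def MultiHomogeneous {r : ℕ} {n : Fin r → ℕ} (d : Fin r → ℕ) {A : Type} [CommRing A]
    (F : MvPolynomial (Vars n) A) : Prop :=
  ∀ m ∈ F.support, ∀ l, ∑ i, m ⟨l, i⟩ = d l

/-- The coordinates of no factor are all zero. -/
def Proper {r : ℕ} {n : Fin r → ℕ} {k : Type} [Zero k] (z : Vars n → k) : Prop :=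
  ∀ l, ∃ i, z ⟨l, i⟩ ≠ 0

/-- The forms of multidegree `(2, …, 2)` whose coefficients are integers of absolute value at most
`H`. -/
def Forms {r : ℕ} (n : Fin r → ℕ) (H : ℕ) : Set (MvPolynomial (Vars n) ℤ) :=
  {f | MultiHomogeneous (fun _ => 2) f ∧ ∀ m, |f.coeff m| ≤ (H : ℤ)}

/-- The hypersurface `f = 0` has points over the real numbers and over all the `p`-adic fields. -/
def LocallySoluble {r : ℕ} {n : Fin r → ℕ} (f : MvPolynomial (Vars n) ℤ) : Prop :=
  (∃ y : Vars n → ℝ, Proper y ∧ aeval y f = 0) ∧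
    ∀ (p : ℕ) [Fact p.Prime], ∃ z : Vars n → ℚ_[p], Proper z ∧ aeval z f = 0

/-- The hypersurface `f = 0` is smooth: it has no singular point over a field of characteristic
zero. -/
def Smooth {r : ℕ} {n : Fin r → ℕ} (f : MvPolynomial (Vars n) ℤ) : Prop :=
  ∀ (K : Type) [Field K] [CharZero K] (z : Vars n → K), Proper z → aeval z f = 0 →
    ∃ s, aeval z (pderiv s f) ≠ 0

/-- The integral `ℚ`-scheme `X` is birational to the hypersurface `f = 0`: its function field is
generated over `ℚ` by the multihomogeneous coordinates `y` of a point of `f = 0` (normalised so that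
one of the coordinates of each factor is `1`) which satisfy no further multihomogeneous
equations. -/
def BirationalTo {r : ℕ} {n : Fin r → ℕ} (f : MvPolynomial (Vars n) ℤ)
    (X : Scheme.{0}) [IsIntegral X] (p : X ⟶ Spec (CommRingCat.of ℚ)) : Prop :=
  ∃ (K : Type) (_ : Field K) (_ : Algebra ℚ K) (e : X.functionField ≃+* K) (y : Vars n → K),
    (∀ a : ℚ, e (toFF ℚ X p a) = algebraMap ℚ K a) ∧ (∀ l, ∃ b, y ⟨l, b⟩ = 1) ∧
    IntermediateField.adjoin ℚ (Set.range y) = ⊤ ∧ aeval y (map (Int.castRingHom ℚ) f) = 0 ∧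
    ∀ (d : Fin r → ℕ) (g : MvPolynomial (Vars n) ℚ), MultiHomogeneous d g → aeval y g = 0 →
      map (Int.castRingHom ℚ) f ∣ g

/-- The rational points of `X` are dense. -/
def DensePoints (X : Scheme.{0}) (p : X ⟶ Spec (CommRingCat.of ℚ)) : Prop :=
  Dense {x : X | ∃ s : Spec (CommRingCat.of ℚ) ⟶ X, s ≫ p = 𝟙 _ ∧ x ∈ Set.range s.base}

/-- The hypersurface `f = 0` is smooth, and every integral scheme `X` locally of finite type over
`ℚ` which is birational to it has dense rational points, has the Hilbert property (if `X` is normal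
also in the form in which covers are only required not to be isomorphisms) and is unirational
over `ℚ`. -/
def Good {r : ℕ} {n : Fin r → ℕ} (f : MvPolynomial (Vars n) ℤ) : Prop :=
  Smooth f ∧ ∀ (X : Scheme.{0}) [IsIntegral X] (p : X ⟶ Spec (CommRingCat.of ℚ))
    [LocallyOfFiniteType p], BirationalTo f X p →
      DensePoints X p ∧ HilbertProperty ℚ X p ∧ UnirationalScheme ℚ X p ∧
      ((∀ x : X, IsIntegrallyClosed (X.presheaf.stalk x)) → HilbertPropertyIso ℚ X p)

open Pool.Agent.Q35.ST in
theorem good_of_nice {r : ℕ} {n : Fin r → ℕ} (hn : ∀ l, 2 ≤ n l) (f : MvPolynomial (Vars n) ℤ)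
    (hf : MultiHomogeneous (fun _ => 2) f) (h : Pool.Agent.Q84.RM.Nice f) : Good f := by
  obtain ⟨hsm, x, hx1, hx2, hx3⟩ := h
  refine ⟨fun K _ _ z hz hE => hsm K z hz hE, ?_⟩
  intro X _ p _ hX
  set F : MvPolynomial (Vars n) ℚ := map (Int.castRingHom ℚ) f with hF
  have hF' : MH Set.univ (fun _ => 2) F := by
    intro m hm l _
    refine hf m ?_ l
    rw [mem_support_iff] at hm ⊢
    intro h0
    apply hm
    rw [hF, coeff_map, h0, map_zero]
  have hmap : ∀ (g : MvPolynomial (Vars n) ℤ) (z : Vars n → AlgebraicClosure ℚ),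
      eval z (map (algebraMap ℚ (AlgebraicClosure ℚ)) (map (Int.castRingHom ℚ) g)) =
        aeval z g := by
    intro g z
    rw [map_map, MvPolynomial.eval_map, aeval_def]
    congr 1
  have hsm' : Smth (map (algebraMap ℚ (AlgebraicClosure ℚ)) F) := by
    intro z hz hzF
    rw [hF, hmap] at hzF
    obtain ⟨s, hs⟩ := hsm (AlgebraicClosure ℚ) z (fun l => hz l (Set.mem_univ _)) hzF
    refine ⟨s, ?_⟩
    rw [pderiv_map, hF, pderiv_map, hmap]
    exact hs
  have hk : ∃ S : Finset ℚ, IntermediateField.adjoin ℚ (S : Set ℚ) = ⊤ :=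
    ⟨∅, eq_top_iff.2 fun a _ => (IntermediateField.adjoin ℚ _).algebraMap_mem a⟩
  obtain ⟨K, iK, iA, e, y, he, h1, h2, h3, h4⟩ := hX
  have h := Pool.Agent.Q35.HB.scheme hk hF' hn hsm' X p
    ⟨K, iK, iA, e, y, he, h1, h2, h3, fun d g hg => h4 d g (fun m hm l => hg m hm l trivial)⟩
  have hev : ∀ g : MvPolynomial (Vars n) ℤ, eval x (map (Int.castRingHom ℚ) g) = aeval x g := by
    intro g
    rw [MvPolynomial.eval_map, aeval_def]
    congr 1
  have h0 : ∃ x : Pc n → ℚ, Nz Set.univ x ∧ eval x F = 0 ∧ ∀ S, ¬ SpecIn F S x := by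
    refine ⟨x, fun l _ => ⟨0, by rw [hx1 l]; exact one_ne_zero⟩, by rw [hF, hev, hx2], ?_⟩
    rintro S ⟨⟨l, hl⟩, hS⟩
    obtain ⟨j, hj⟩ := hx3 l
    obtain ⟨c, hc⟩ := hS ⟨l, j⟩ hl
    have h5 := hc x (fun t _ => rfl)
    rw [hF, pderiv_map, hev, hev, hx2, mul_zero] at h5
    exact hj h5
  have h5 := h.1
  have h6 : DensePoints X p := (h5.out 0 1).1 h0
  exact ⟨h6, (h5.out 0 2).1 h0, (h5.out 0 3).1 h0, fun hnor => h.2 hnor h6⟩

/-- **100% of the everywhere locally soluble hypersurfaces of multidegree `(2, …, 2)` in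
`ℙ^{n₁} × … × ℙ^{n_r}` over `ℚ` are smooth, unirational and have the Hilbert property.** -/
theorem result (r : ℕ) (hr : 2 ≤ r) (n : Fin r → ℕ) (hn : ∀ l, 2 ≤ n l) :
    Filter.Tendsto (fun H : ℕ =>
        (({f | f ∈ Forms n H ∧ LocallySoluble f ∧ Good f} : Set _).ncard : ℝ) /
        (({f | f ∈ Forms n H ∧ LocallySoluble f} : Set _).ncard : ℝ))
      Filter.atTop (nhds 1) := by
  have h := Pool.Agent.Q84.RM.nice_ratio n (fun _ => 2) hr (fun _ => le_rfl)
    (fun i => one_le_two.trans (hn i)) ⟨⟨0, by omega⟩, hn _⟩ Good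
    (fun f hf hN => good_of_nice hn f hf hN)
  have he : ∀ f : MvPolynomial (Vars n) ℤ,
      Pool.Agent.Y716.M.ElsB f ↔ LocallySoluble f := by
    intro f
    unfold Pool.Agent.Y716.M.ElsB LocallySoluble Proper
    constructor
    · rintro ⟨⟨y, hy1, hy2⟩, h2⟩
      refine ⟨⟨y, fun l => Function.ne_iff.1 (hy1 l), hy2⟩, fun p _ => ?_⟩
      obtain ⟨z, hz1, hz2⟩ := h2 p
      exact ⟨z, fun l => Function.ne_iff.1 (hz1 l), hz2⟩
    · rintro ⟨⟨y, hy1, hy2⟩, h2⟩
      refine ⟨⟨y, fun l => Function.ne_iff.2 (hy1 l), hy2⟩, fun p _ => ?_⟩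
      obtain ⟨z, hz1, hz2⟩ := h2 p
      exact ⟨z, fun l => Function.ne_iff.2 (hz1 l), hz2⟩
  refine h.congr (fun H => ?_)
  congr 2
  · congr 1
    ext f
    simp only [Set.mem_ofPred_eq, Forms, MultiHomogeneous, he]
  · congr 1
    ext f
    simp only [Set.mem_ofPred_eq, Forms, MultiHomogeneous, he]

end Pool.Agent.Results.MP_87f965_ag.RandomMultidegreeTwo
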