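import Pool.Agent.Q84.RM.Twist
import Pool.Agent.Results.MP_03ef3d_ag.TwistsAlongRealMultiples

/-!
# The Hilbert property for the quadratic twists of Fano double covers by the integers near `± α P(n)`

Let `F(x; u, v) = A(x) u² + B(x) u v + D(x) v²` be a form of bidegree `(2, 2)` with integral coefficients such that the
divisor `F = 0` in `ℙᵐ × ℙ¹` is smooth, and let `X_a : w² = a F(x; u, v)`. Let `q ≥ 2`. Outside ONE set of real numbers of
Hausdorff dimension at most `q / (q + 1 / (q 2 ^ (q - 1)))` (that is `8 / 9` for `q = 2`) every `α > 0` has the following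
property. There is `η > 0` such that for all these `F`: for all `L` and `ε > 0`, all large `N` and ALL integral polynomials `P`
of degree `q` with positive leading coefficient and coefficients of size at most `N ^ η`, for all but `ε N` of the `n ≤ N`, for
EVERY squarefree integer `a` with `||a| - ⌊α P(n)⌋| ≤ L` for which `X_a` has points everywhere locally, `X_a` is unirational over
`ℚ`, has dense rational points and the Hilbert property; and there is `c > 0` such that for at least `c N` of the `n ≤ N` this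
holds for one of the numbers `a = ± ⌊α P(n)⌋`.
-/

set_option autoImplicit false

namespace Pool.Agent.Results.MP_87f965_ag.TwistsAlongRealMultiples

open Finset Filter Topology AlgebraicGeometry CategoryTheory W560.HP

/-- The value of `F = A u² + B u v + D v²`. -/
noncomputable def value {m : ℕ} (A B D : MvPolynomial (Fin (m + 1)) ℤ) {K : Type} [Field K]
    (x : Fin (m + 1) → K) (u v : K) : K :=
  MvPolynomial.aeval x A * u ^ 2 + MvPolynomial.aeval x B * (u * v) + MvPolynomial.aeval x D * v ^ 2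

/-- The divisor `A u² + B u v + D v² = 0` in `ℙᵐ × ℙ¹` is smooth: there is no point `(x, (u, v))`
over a field of characteristic zero at which all the partial derivatives vanish. -/
def SmoothBranch {m : ℕ} (A B D : MvPolynomial (Fin (m + 1)) ℤ) : Prop :=
  ∀ (K : Type) [Field K] [CharZero K] (x : Fin (m + 1) → K) (u v : K), x ≠ 0 → (u ≠ 0 ∨ v ≠ 0) →
    2 * MvPolynomial.aeval x A * u + MvPolynomial.aeval x B * v = 0 →
    MvPolynomial.aeval x B * u + 2 * MvPolynomial.aeval x D * v = 0 →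
    ¬ ∀ i, value (MvPolynomial.pderiv i A) (MvPolynomial.pderiv i B) (MvPolynomial.pderiv i D) x u v
      = 0

/-- The double cover `w² = a F(x; u, v)` of `ℙᵐ × ℙ¹` has a point over the field `K`. -/
def HasPoint {m : ℕ} (A B D : MvPolynomial (Fin (m + 1)) ℤ) (a : ℤ) (K : Type) [Field K] : Prop :=
  ∃ (x : Fin (m + 1) → K) (u v w : K), x ≠ 0 ∧ (u ≠ 0 ∨ v ≠ 0) ∧ w ^ 2 = (a : K) * value A B D x u v

/-- The integral `ℚ`-scheme `X` is birational to the double cover `w² = a F(x; u, v)` of `ℙᵐ × ℙ¹`: its function field is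
generated by `x₁, …, x_m, t, w`, where `x₁, …, x_m, t` are algebraically independent over `ℚ` and
`w² = a F(1, x₁, …, x_m; 1, t)`. -/
def BirationalTo {m : ℕ} (A B D : MvPolynomial (Fin (m + 1)) ℤ) (a : ℤ) (X : Scheme.{0}) [IsIntegral X]
    (p : X ⟶ Spec (CommRingCat.of ℚ)) : Prop :=
  ∃ (K : Type) (_ : Field K) (_ : Algebra ℚ K) (e : X.functionField ≃+* K) (x : Fin (m + 1) → K)
    (t w : K), (∀ c : ℚ, e (toFF ℚ X p c) = algebraMap ℚ K c) ∧ x 0 = 1 ∧
    AlgebraicIndependent ℚ (fun o : Option (Fin m) => o.elim t (fun j => x j.succ)) ∧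
    IntermediateField.adjoin ℚ (insert w (insert t (Set.range x))) = ⊤ ∧
    w ^ 2 = (a : K) * value A B D x 1 t

/-- The rational points of `X` are dense. -/
def DensePoints (X : Scheme.{0}) (p : X ⟶ Spec (CommRingCat.of ℚ)) : Prop :=
  Dense {x : X | ∃ s : Spec (CommRingCat.of ℚ) ⟶ X, s ≫ p = 𝟙 _ ∧ x ∈ Set.range s.base}

/-- Every integral scheme `X` locally of finite type over `ℚ` which is birational to `w² = a F(x; u, v)` has dense rational
points, has the Hilbert property (if `X` is normal also in the form in which covers are only required not to be isomorphisms)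
and is unirational over `ℚ`. -/
def Good {m : ℕ} (A B D : MvPolynomial (Fin (m + 1)) ℤ) (a : ℤ) : Prop :=
  ∀ (X : Scheme.{0}) [IsIntegral X] (p : X ⟶ Spec (CommRingCat.of ℚ)) [LocallyOfFiniteType p],
    BirationalTo A B D a X p →
      DensePoints X p ∧ HilbertProperty ℚ X p ∧ UnirationalScheme ℚ X p ∧
      ((∀ x : X, IsIntegrallyClosed (X.presheaf.stalk x)) → HilbertPropertyIso ℚ X p)

/-- `a` is squarefree and `w² = a F(x; u, v)` has points over `ℝ` and over every `ℚ_p` -/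
def LocallySoluble {m : ℕ} (A B D : MvPolynomial (Fin (m + 1)) ℤ) (a : ℤ) : Prop :=
  Squarefree a ∧ HasPoint A B D a ℝ ∧ ∀ p : Nat.Primes, HasPoint A B D a ℚ_[(p : ℕ)]

open Classical in
/-- the number of the `1 ≤ n ≤ N` such that `LocallySoluble` but not `Good` holds for some `a` with
`||a| - ⌊α P(n)⌋| ≤ L` -/
noncomputable def failures {m : ℕ} (A B D : MvPolynomial (Fin (m + 1)) ℤ) (L : ℕ) (α : ℝ) (P : Polynomial ℤ)
    (N : ℕ) : ℕ :=
  ((Icc 1 N).filter fun n : ℕ => ∃ a : ℤ, |(|a| - (⌊α * ((P.eval (n : ℤ) : ℤ) : ℝ)⌋₊ : ℤ))| ≤ (L : ℤ) ∧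
    LocallySoluble A B D a ∧ ¬ Good A B D a).card

open Classical in
/-- the number of the `1 ≤ n ≤ N` such that `LocallySoluble` and `Good` hold for `a = ⌊α P(n)⌋` or
`a = -⌊α P(n)⌋` -/
noncomputable def successes {m : ℕ} (A B D : MvPolynomial (Fin (m + 1)) ℤ) (α : ℝ) (P : Polynomial ℤ) (N : ℕ) : ℕ :=
  ((Icc 1 N).filter fun n : ℕ => ∃ a : ℤ, |a| = (⌊α * ((P.eval (n : ℤ) : ℤ) : ℝ)⌋₊ : ℤ) ∧
    LocallySoluble A B D a ∧ Good A B D a).card

open Pool.Agent.Results.MP_03ef3d_ag in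
theorem good_of_point {m : ℕ} {A B D : MvPolynomial (Fin (m + 1)) ℤ} (hA : A.IsHomogeneous 2)
    (hB : B.IsHomogeneous 2) (hD : D.IsHomogeneous 2) (hs : SmoothBranch A B D) {a : ℤ} (ha : a ≠ 0)
    (h : FanoDoubleCovers.HasPoint A B D a ℚ) : Good A B D a :=
  fun X _ p _ hX => Pool.Agent.Q84.RM.Tw.good A B D hA hB hD ha (fun x u v => hs ℚ x u v) h X p hX

open Pool.Agent.Results.MP_03ef3d_ag in
/-- **Theorem.** -/
theorem result (q : ℕ) (hq : 2 ≤ q) :
    ∃ E : Set ℝ, dimH E ≤ ENNReal.ofReal (q / (q + 1 / ((q : ℝ) * 2 ^ (q - 1)))) ∧ ∀ α : ℝ, 0 < α → α ∉ E →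
      ∃ η : ℝ, 0 < η ∧ ∀ m : ℕ, 1 ≤ m → ∀ A B D : MvPolynomial (Fin (m + 1)) ℤ,
      A.IsHomogeneous 2 → B.IsHomogeneous 2 → D.IsHomogeneous 2 → SmoothBranch A B D →
        (∀ (L : ℕ) (ε : ℝ), 0 < ε → ∀ᶠ N : ℕ in atTop, ∀ P : Polynomial ℤ, P.natDegree = q → 0 < P.leadingCoeff →
          (∀ j, |((P.coeff j : ℤ) : ℝ)| ≤ (N : ℝ) ^ η) → (failures A B D L α P N : ℝ) ≤ ε * N) ∧
        ∃ c : ℝ, 0 < c ∧ ∀ᶠ N : ℕ in atTop, ∀ P : Polynomial ℤ, P.natDegree = q → 0 < P.leadingCoeff →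
          (∀ j, |((P.coeff j : ℤ) : ℝ)| ≤ (N : ℝ) ^ η) → c * N ≤ (successes A B D α P N : ℝ) := by
  classical
  obtain ⟨E, hE, hg⟩ := Pool.Agent.Results.MP_03ef3d_ag.TwistsAlongRealMultiples.result q hq
  refine ⟨E, hE, fun α hα hαE => ?_⟩
  obtain ⟨η, hη, h1⟩ := hg α hα hαE
  refine ⟨η, hη, fun m hm A B D hA hB hD hs => ?_⟩
  obtain ⟨g1, c, hc, g2⟩ := h1 m 1 hm le_rfl A B D hA hB hD hs
  refine ⟨fun L ε hε => ?_, c, hc, ?_⟩
  · filter_upwards [g1 L ε hε] with N hN
    intro P hdeg hlead hco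
    refine le_trans (Nat.cast_le.2 (card_le_card ?_)) (hN P hdeg hlead hco)
    intro n hn
    rw [mem_filter] at hn ⊢
    obtain ⟨hn1, a, ha1, ⟨ha2, ha3, ha4⟩, ha5⟩ := hn
    exact ⟨hn1, a, ha1, ha2, ha3, ha4, fun h => ha5 (good_of_point hA hB hD hs ha2.ne_zero h)⟩
  · filter_upwards [g2] with N hN
    intro P hdeg hlead hco
    refine (hN P hdeg hlead hco).trans (Nat.cast_le.2 (card_le_card ?_))
    intro n hn
    rw [mem_filter] at hn ⊢
    obtain ⟨hn1, a, ha1, ha2, ha3⟩ := hn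
    exact ⟨hn1, a, ha1, ⟨ha2, FanoDoubleCovers.cast_point ℝ ha3, fun p => FanoDoubleCovers.cast_point _ ha3⟩,
      good_of_point hA hB hD hs ha2.ne_zero ha3⟩

end Pool.Agent.Results.MP_87f965_ag.TwistsAlongRealMultiples
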